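import Pool.Agent.H36.BP.T.FEW
import Pool.Agent.H36.BP.T.DENS
import Pool.Agent.H36.BP.T.CORE
import Pool.Agent.H36.BP.T.THM
import Pool.Agent.H36.BP.T.OM
import Pool.Agent.H36.BP.T.NUM
import Pool.Agent.H36.BP.T.Final

/-!
# Project BP: assembly
-/

set_option autoImplicit false

namespace Pool.Agent.H36.BP

open Pool.Agent.H36.BK Pool.Agent Pool.Agent.H36.BP.T

theorem thm_all : Pool.Agent.H36.BP.S_thm :=
  Pool.Agent.H36.BP.T.thm (Pool.Agent.H36.BP.T.core (H82.BK.uni H82.BK.four) H82.BK.fkg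
    (Pool.Agent.H36.BK.cov (Pool.Agent.H36.BK.var Pool.Agent.H36.BK.iid Pool.Agent.H36.BK.img))
    (Pool.Agent.H36.BP.T.dens H82.BK.four Pool.Agent.H36.BK.spread H82.BK.lc
      (Pool.Agent.H36.BP.T.few Pool.Agent.H36.BP.T.om))
    Pool.Agent.H36.BK.ind (Pool.Agent.H36.BK.pair H82.BK.fkg (Pool.Agent.H36.BK.near H82.BK.hmax))
    (Pool.Agent.H36.BK.clust Pool.Agent.H36.BK.tree Pool.Agent.H36.BK.bigs' Pool.Agent.H36.BK.norm
      Pool.Agent.H36.BK.key) Pool.Agent.H36.BK.lim) Pool.Agent.H36.BP.T.num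

end Pool.Agent.H36.BP
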