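import Pool.Agent.H36.BK.All

/-!
# Project BP: statements (the bounds of project BK with polynomial dependence on `κ`)

`K = 2^14 κ` takes the place of `2^(2κ+13)`.
-/

set_option autoImplicit false

open Finset Filter Topology
open scoped Classical

namespace Pool.Agent.H36.BP

open Pool.Agent.H36.BK Pool.Agent.H36.BK.LW Pool.Agent.H13R3.WB Pool.Agent.H931R3.Bal

/-- BP-OM. Like `Pool.Agent.H36.BK.Om_double` (`H36/BK/FEW.lean`): for large `M`, with `m = M / κ`,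
`|Om (M + m)| ≤ c (5/4) (M + m)^n`, `|Om M| ≥ c (3/4) M^n`, `(M + m)^n ≤ (1 + 1/κ)^n M^n`,
`(1 + 1/κ)^n ≤ (exp (1/κ))^n ≤ exp w ≤ 4^w` as `n ≤ κ w`. -/
def S_om : Prop :=
  ∀ (α : Type) [Fintype α] [PartialOrder α] (κ w : ℕ), 1 ≤ κ → Fintype.card α ≤ κ * w →
    ∀ᶠ M : ℕ in atTop, (Om α (M + M / κ)).card ≤ 2 ^ (2 * w + 1) * (Om α M).card

/-- BP-FEW. From `S_om` (compare `Pool.Agent.H36.BK.few`): `shift_count` with `m := M / κ`,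
`t := M / (2^7 κ)` (`2^7 t ≤ m`), `k := (w+1)/2`: `|E| (2^7)^k ≤ |Om (M + m)| ≤ 2^(2w+1) |Om M|`,
`7 k ≥ 2 w + 3`. -/
def S_few : Prop :=
  ∀ (α : Type) [Fintype α] [PartialOrder α] (κ : ℕ) (A : Finset α), 1 ≤ κ →
    IsAntichain (· ≤ ·) (A : Set α) → A.Nonempty → Fintype.card α ≤ κ * A.card →
    ∀ᶠ M : ℕ in atTop, 4 * cnt α M (fun f =>
      A.card ≤ 2 * (A.filter fun x => len M f x ≤ M / (2 ^ 7 * κ)).card) ≤ (Om α M).card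

/-- BP-DENS -/
def S_dens : Prop :=
  ∀ (α : Type) [Fintype α] [PartialOrder α] (κ : ℕ) (A : Finset α), 1 ≤ κ →
    IsAntichain (· ≤ ·) (A : Set α) → A.Nonempty → Fintype.card α ≤ κ * A.card →
    ∀ᶠ M : ℕ in atTop, A.card ≤
      6 * (A.filter fun x => ∀ j, Nx α M x j * M ≤ 2 ^ 14 * κ * (Om α M).card).card

/-- BP-CORE -/
def S_core : Prop :=
  ∀ (α : Type) [Fintype α] [PartialOrder α] (κ : ℕ) (A : Finset α) (ε lam : ℝ) (l D r : ℕ),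
    1 ≤ κ → IsAntichain (· ≤ ·) (A : Set α) → A.Nonempty → Fintype.card α ≤ κ * A.card →
    0 < ε → ε ≤ 1 → 1 ≤ D → 0 ≤ lam → 8 * ((2 : ℝ) ^ 14 * κ) / ε ≤ 2 ^ r →
    12 * 2 ^ r * lam ≤ ε / 4 → 32 * ((2 : ℝ) ^ 14 * κ) ^ 2 * (κ / D) ≤ lam ^ 3 →
    (∀ x ∈ A, ∀ y ∈ A, x ≠ y → 3 / 2 * ε < |prob α x y - prob α y x|) →
    (A.card : ℝ) ≤ 12 * (2 * D + 1) * clu l (2 ^ 14 * κ) ε

/-- BP-NUM. Compare `Pool.Agent.H36.BK.num` (`H36/BK/BK23.lean`). `K = 2^14 κ`, `lam = ε^2/(768 K)`,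
`8K/ε ≤ 2^r ≤ 16K/ε`, `D = ⌈2^34 K^5 κ/ε^6⌉`, `a = (K²/ε)^(1/4) = 2^7 (κ²/ε)^(1/4)`,
`L = log (K²/ε) = 27 log 2 + log (2κ²/ε)`, `a ≤ 2^l ≤ 2 a`. As `1/ε ≤ a^4` and `K²/(ε 8^l) ≤ a`:
`clu ≤ exp (150 a + 35 a L + 3 + L + 629 a)`, and `12 (2D+1) ≤ 2^40 K^5 κ/ε^6 ≤ exp (40 + 6 L)`.
Sum `≤ a (822 + 42 L) < 2^18 (κ²/ε)^(1/4) log (2κ²/ε)`. -/
def S_num : Prop :=
  ∀ (κ w : ℕ) (ε : ℝ), 1 ≤ κ → 0 < ε → ε ≤ 1 / 2 →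
    Real.exp (2 ^ 18 * ((κ : ℝ) ^ 2 / ε) ^ (1 / 4 : ℝ) * Real.log (2 * (κ : ℝ) ^ 2 / ε)) ≤ w →
    ∃ (l D r : ℕ) (lam : ℝ), 1 ≤ D ∧ 0 ≤ lam ∧ 8 * ((2 : ℝ) ^ 14 * κ) / ε ≤ 2 ^ r ∧
      12 * 2 ^ r * lam ≤ ε / 4 ∧ 32 * ((2 : ℝ) ^ 14 * κ) ^ 2 * (κ / D) ≤ lam ^ 3 ∧
      12 * (2 * D + 1) * clu l (2 ^ 14 * κ) ε < w

/-- BP-THM -/
def S_thm : Prop :=
  ∀ (κ w : ℕ) (ε : ℝ), 1 ≤ κ → 0 < ε → ε ≤ 1 / 2 →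
    Real.exp (2 ^ 18 * ((κ : ℝ) ^ 2 / ε) ^ (1 / 4 : ℝ) * Real.log (2 * (κ : ℝ) ^ 2 / ε)) ≤ w →
    ∀ (P : Type) [Fintype P] [PartialOrder P] (A : Finset P), IsAntichain (· ≤ ·) (A : Set P) →
      A.card = w → Fintype.card P ≤ κ * w → 1 / 2 - ε ≤ balance P

end Pool.Agent.H36.BP
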